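import Pool.Agent.X4.CG.Sieve

/-! A number `M` near `M₀` for which the sum of `1 / p` over the odd prime divisors is small. -/

set_option autoImplicit false

namespace Pool.Agent.X4.CG

open Finset

theorem sum_inv (R : ℕ) : ∑ k ∈ Ico 1 (R + 1), (1 : ℝ) / ((2 * k + 1 : ℕ) : ℝ) ≤ R / 40 + 20 := by
  have h1 : ∀ k ∈ Ico 1 (R + 1), (1 : ℝ) / ((2 * k + 1 : ℕ) : ℝ) ≤ 1 / 40 + (if k < 20 then 1 else 0) := by
    intro k hk
    have hk1 := (mem_Ico.1 hk).1
    split_ifs with h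
    · have : (1 : ℝ) / ((2 * k + 1 : ℕ) : ℝ) ≤ 1 := by
        rw [div_le_one (by positivity)]
        exact_mod_cast (by omega : 1 ≤ 2 * k + 1)
      linarith
    · rw [add_zero]
      apply one_div_le_one_div_of_le (by norm_num)
      exact_mod_cast (by omega : 40 ≤ 2 * k + 1)
  refine (sum_le_sum h1).trans ?_
  rw [sum_add_distrib, sum_const, Nat.card_Ico, Nat.add_sub_cancel, nsmul_eq_mul, ← sum_filter, sum_const,
    nsmul_eq_mul, mul_one]
  have h2 : ((Ico 1 (R + 1)).filter (fun k => k < 20)).card ≤ 20 := by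
    have : (Ico 1 (R + 1)).filter (fun k => k < 20) ⊆ range 20 := by
      intro k hk
      exact mem_range.2 (mem_filter.1 hk).2
    simpa using card_le_card this
  have h3 : ((((Ico 1 (R + 1)).filter (fun k => k < 20)).card : ℕ) : ℝ) ≤ 20 := by exact_mod_cast h2
  linarith

theorem card_mult (a R d : ℕ) : ((((Ico a (a + R)).filter (fun M => d ∣ M)).card : ℕ) : ℝ) ≤ R / d + 1 := by
  have h1 := card_class (A := (Ico a (a + R)).filter (fun M => d ∣ M)) (d := d) (filter_subset _ _) (by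
    intro x hx y hy
    have h2 : (d : ℤ) ∣ x := by exact_mod_cast (mem_filter.1 hx).2
    have h3 : (d : ℤ) ∣ y := by exact_mod_cast (mem_filter.1 hy).2
    exact dvd_sub h2 h3)
  have h2 : ((R / d : ℕ) : ℝ) ≤ (R : ℝ) / d := Nat.cast_div_le
  have h3 : ((((Ico a (a + R)).filter (fun M => d ∣ M)).card : ℕ) : ℝ) ≤ ((R / d + 1 : ℕ) : ℝ) := by
    exact_mod_cast h1
  push_cast at h3
  linarith

/-- the sum for one `M` -/
theorem sg_le (R M : ℕ) (hR : 1 ≤ R) (hM : M ≠ 0) :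
    sg M ≤ ∑ k ∈ (Ico 1 (R + 1)).filter (fun k => (2 * k + 1) ∣ M), (1 : ℝ) / ((2 * k + 1 : ℕ) : ℝ) +
      Nat.log 2 M / R := by
  have hR0 : (0 : ℝ) < R := by exact_mod_cast hR
  have hsplit : sg M = ∑ p ∈ (M.primeFactors.filter (fun p => p ≠ 2)).filter (fun p => p ≤ R), (1 : ℝ) / p +
      ∑ p ∈ (M.primeFactors.filter (fun p => p ≠ 2)).filter (fun p => ¬ p ≤ R), (1 : ℝ) / p := by
    unfold sg
    rw [sum_filter_add_sum_filter_not]
  rw [hsplit]
  have hodd : ∀ p ∈ M.primeFactors.filter (fun p => p ≠ 2), p % 2 = 1 ∧ 3 ≤ p ∧ p ∣ M := by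
    intro p hp
    obtain ⟨h5, h6⟩ := mem_filter.1 hp
    have h7 := Nat.prime_of_mem_primeFactors h5
    have h8 := h7.two_le
    rcases h7.eq_two_or_odd with h | h
    · exact absurd h h6
    · exact ⟨h, by omega, Nat.dvd_of_mem_primeFactors h5⟩
  have h1 : ∑ p ∈ (M.primeFactors.filter (fun p => p ≠ 2)).filter (fun p => p ≤ R), (1 : ℝ) / p ≤
      ∑ k ∈ (Ico 1 (R + 1)).filter (fun k => (2 * k + 1) ∣ M), (1 : ℝ) / ((2 * k + 1 : ℕ) : ℝ) := by
    have e : ∑ p ∈ (M.primeFactors.filter (fun p => p ≠ 2)).filter (fun p => p ≤ R), (1 : ℝ) / p =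
        ∑ k ∈ ((M.primeFactors.filter (fun p => p ≠ 2)).filter (fun p => p ≤ R)).image (fun p => (p - 1) / 2),
          (1 : ℝ) / ((2 * k + 1 : ℕ) : ℝ) := by
      rw [sum_image]
      · apply sum_congr rfl
        intro p hp
        obtain ⟨h2, h3, h4⟩ := hodd p (mem_filter.1 hp).1
        have : 2 * ((p - 1) / 2) + 1 = p := by omega
        rw [this]
      · intro p hp q hq hpq
        obtain ⟨h2, h3, h4⟩ := hodd p (mem_filter.1 hp).1
        obtain ⟨h5, h6, h7⟩ := hodd q (mem_filter.1 hq).1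
        have : (p - 1) / 2 = (q - 1) / 2 := hpq
        omega
    rw [e]
    refine sum_le_sum_of_subset_of_nonneg ?_ (fun _ _ _ => by positivity)
    intro k hk
    obtain ⟨p, hp, rfl⟩ := mem_image.1 hk
    obtain ⟨h2, h3, h4⟩ := hodd p (mem_filter.1 hp).1
    have h5 := (mem_filter.1 hp).2
    have h6 : 2 * ((p - 1) / 2) + 1 = p := by omega
    refine mem_filter.2 ⟨mem_Ico.2 ⟨by omega, by omega⟩, ?_⟩
    rw [h6]
    exact h4
  have h2 : ∑ p ∈ (M.primeFactors.filter (fun p => p ≠ 2)).filter (fun p => ¬ p ≤ R), (1 : ℝ) / p ≤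
      Nat.log 2 M / R := by
    have h3 : ∀ p ∈ (M.primeFactors.filter (fun p => p ≠ 2)).filter (fun p => ¬ p ≤ R), (1 : ℝ) / p ≤ 1 / R := by
      intro p hp
      have h4 := (mem_filter.1 hp).2
      apply one_div_le_one_div_of_le hR0
      exact_mod_cast (by omega : R ≤ p)
    refine (sum_le_sum h3).trans ?_
    rw [sum_const, nsmul_eq_mul]
    have h4 : ((((M.primeFactors.filter (fun p => p ≠ 2)).filter (fun p => ¬ p ≤ R)).card : ℕ) : ℝ) ≤
        Nat.log 2 M := by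
      exact_mod_cast (card_filter_le _ _).trans ((card_filter_le _ _).trans (card_primeFactors_le M hM))
    rw [mul_one_div]
    exact div_le_div_of_nonneg_right h4 hR0.le
  linarith

/-- **Choice of `M`.** -/
theorem choice (a R L : ℕ) (ha : 1 ≤ a) (hL : Nat.log 2 (a + R) ≤ L) (hR : 40 * (21 + L) ≤ R) :
    ∃ M ∈ Ico a (a + R), sg M ≤ 3 / 10 := by
  by_contra hcon
  push Not at hcon
  have hR1 : 1 ≤ R := by omega
  have hR0 : (0 : ℝ) < R := by exact_mod_cast hR1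
  have h1 : (3 / 10 : ℝ) * R ≤ ∑ M ∈ Ico a (a + R), sg M := by
    have := card_nsmul_le_sum (Ico a (a + R)) sg (3 / 10) (fun M hM => (hcon M hM).le)
    rw [Nat.card_Ico, Nat.add_sub_cancel_left, nsmul_eq_mul] at this
    linarith
  have h2 : ∑ M ∈ Ico a (a + R), sg M ≤ ∑ M ∈ Ico a (a + R),
      (∑ k ∈ (Ico 1 (R + 1)).filter (fun k => (2 * k + 1) ∣ M), (1 : ℝ) / ((2 * k + 1 : ℕ) : ℝ) +
        (L : ℝ) / R) := by
    apply sum_le_sum
    intro M hM
    obtain ⟨h3, h4⟩ := mem_Ico.1 hM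
    have h5 := sg_le R M hR1 (by omega)
    have h6 : (Nat.log 2 M : ℝ) ≤ L := by
      exact_mod_cast (Nat.log_mono_right h4.le).trans hL
    have h7 : (Nat.log 2 M : ℝ) / R ≤ (L : ℝ) / R := div_le_div_of_nonneg_right h6 hR0.le
    linarith
  rw [sum_add_distrib, sum_const, Nat.card_Ico, Nat.add_sub_cancel_left, nsmul_eq_mul,
    mul_div_cancel₀ _ hR0.ne'] at h2
  have h3 : ∑ M ∈ Ico a (a + R), ∑ k ∈ (Ico 1 (R + 1)).filter (fun k => (2 * k + 1) ∣ M),
      (1 : ℝ) / ((2 * k + 1 : ℕ) : ℝ) = ∑ k ∈ Ico 1 (R + 1), (1 : ℝ) / ((2 * k + 1 : ℕ) : ℝ) *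
        ((((Ico a (a + R)).filter (fun M => (2 * k + 1) ∣ M)).card : ℕ) : ℝ) := by
    simp_rw [sum_filter]
    rw [sum_comm]
    apply sum_congr rfl
    intro k _
    rw [← sum_filter, sum_const, nsmul_eq_mul, mul_comm]
  rw [h3] at h2
  have h4 : ∑ k ∈ Ico 1 (R + 1), (1 : ℝ) / ((2 * k + 1 : ℕ) : ℝ) *
        ((((Ico a (a + R)).filter (fun M => (2 * k + 1) ∣ M)).card : ℕ) : ℝ) ≤
      ∑ k ∈ Ico 1 (R + 1), (R * ((1 : ℝ) / ((2 * k + 1 : ℕ) : ℝ) ^ 2) + (1 : ℝ) / ((2 * k + 1 : ℕ) : ℝ)) := by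
    apply sum_le_sum
    intro k _
    have h5 := mul_le_mul_of_nonneg_left (card_mult a R (2 * k + 1))
      (by positivity : (0 : ℝ) ≤ (1 : ℝ) / ((2 * k + 1 : ℕ) : ℝ))
    refine h5.trans (le_of_eq ?_)
    have h6 : ((2 * k + 1 : ℕ) : ℝ) ≠ 0 := by positivity
    field_simp
  rw [sum_add_distrib, ← mul_sum] at h4
  have h5 := mul_le_mul_of_nonneg_left (sum_sq' R) hR0.le
  have h6 := sum_inv R
  have h7 : (40 : ℝ) * (21 + L) ≤ R := by exact_mod_cast hR
  linarith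

end Pool.Agent.X4.CG
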