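import Pool.Agent.X4.CG.Choice

/-! The numbers `4 N² - t²`. -/

set_option autoImplicit false

namespace Pool.Agent.X4.CG

open Finset

theorem cop_ab {N M t : ℕ} (hN : ∀ p : ℕ, p.Prime → p ∣ N → p ∣ M) (ht : t % 2 = 1) (htN : t < 2 * N)
    (hc : Nat.Coprime t M) : Nat.Coprime (2 * N - t) (2 * N + t) := by
  by_contra h
  obtain ⟨p, hp, h1, h2⟩ := Nat.Prime.not_coprime_iff_dvd.1 h
  have h3 : p ∣ 4 * N := by
    have := dvd_add h1 h2
    have e : 2 * N - t + (2 * N + t) = 4 * N := by omega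
    rwa [e] at this
  have hp2 : p ≠ 2 := by
    rintro rfl
    omega
  have h4 : p ∣ N := by
    rcases hp.dvd_mul.1 h3 with h5 | h5
    · exfalso
      have h6 : p ∣ 2 ^ 2 := by norm_num; exact h5
      exact hp2 ((Nat.prime_dvd_prime_iff_eq hp Nat.prime_two).1 (hp.dvd_of_dvd_pow h6))
    · exact h5
  have h5 : p ∣ t := by
    have h6 : p ∣ 2 * N := h4.mul_left 2
    exact (Nat.dvd_add_right h6).1 h2
  exact Nat.Prime.not_coprime_iff_dvd.2 ⟨p, hp, h5, hN p hp h4⟩ hc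

theorem core (g M X Λ T : ℕ) (hM : 2 ≤ M) (hsg : sg M ≤ 3 / 10)
    (hX : X < 4 * (M ^ g) ^ 2) (hT : T = Nat.sqrt (4 * (M ^ g) ^ 2 - X - 1))
    (hΛ : 20 * (Nat.sqrt (M ^ g) + Nat.log 2 M + 1) ≤ Λ) (hΛT : 2 * Λ + 2 ≤ T) :
    ∃ S : Finset ℕ, (Λ : ℝ) / 10 ≤ S.card ∧ ∀ D ∈ S, X < D ∧ D ≤ X + (2 * Λ + 2) * (2 * T + 2) ∧
      Squarefree D ∧ D % 4 = 3 ∧ ∃ t, t % 2 = 1 ∧ Nat.Coprime t M ∧ t ^ 2 + D = 4 * (M ^ g) ^ 2 := by
  set N := M ^ g with hN
  set K := Nat.sqrt N with hK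
  have hN0 : 0 < N := by positivity
  have hNM : ∀ p : ℕ, p.Prime → p ∣ N → p ∣ M := fun p hp h => hp.dvd_of_dvd_pow h
  have hT1 : T * T ≤ 4 * N ^ 2 - X - 1 := by rw [hT]; exact Nat.sqrt_le _
  have hT2 : 4 * N ^ 2 - X - 1 < (T + 1) * (T + 1) := by rw [hT]; exact Nat.lt_succ_sqrt _
  have hT3 : T * T + X + 1 ≤ 4 * N ^ 2 := by omega
  have hT4 : 4 * N ^ 2 ≤ X + (T + 1) * (T + 1) := by omega
  have hTN : T < 2 * N := by
    by_contra hc
    push Not at hc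
    nlinarith
  have hKN : N < (K + 1) * (K + 1) := Nat.lt_succ_sqrt _
  obtain ⟨S0, hS0⟩ : ∃ S0, S0 + Λ = (T + 1) / 2 := ⟨(T + 1) / 2 - Λ, by omega⟩
  -- facts on the window
  have hwin : ∀ s ∈ Ico S0 (S0 + Λ), 2 * s + 1 ≤ T ∧ T ≤ 2 * s + 1 + 2 * Λ := by
    intro s hs
    obtain ⟨h1, h2⟩ := mem_Ico.1 hs
    omega
  set W := Ico S0 (S0 + Λ) with hW
  have hb1 : (((W.filter (fun s => ¬ Squarefree (2 * N - (2 * s + 1)))).card : ℕ) : ℝ) ≤ Λ / 4 + K := by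
    refine bad_sq Λ S0 K (1 - 2 * N) _ ?_
    intro s hs
    obtain ⟨h1, h2⟩ := hwin s hs
    refine ⟨by omega, ?_, ?_⟩
    · have : 2 * N - (2 * s + 1) ≤ 4 * N := by omega
      nlinarith
    · intro d hd
      have h3 : (d : ℤ) ∣ ((2 * N - (2 * s + 1) : ℕ) : ℤ) := by exact_mod_cast hd
      rw [Nat.cast_sub (by omega)] at h3
      have e : 2 * (s : ℤ) + (1 - 2 * N) = -(((2 * N : ℕ) : ℤ) - ((2 * s + 1 : ℕ) : ℤ)) := by
        push_cast
        ring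
      rw [e]
      exact (dvd_neg).2 h3
  have hb2 : (((W.filter (fun s => ¬ Squarefree (2 * N + (2 * s + 1)))).card : ℕ) : ℝ) ≤ Λ / 4 + K := by
    refine bad_sq Λ S0 K (1 + 2 * N) _ ?_
    intro s hs
    obtain ⟨h1, h2⟩ := hwin s hs
    refine ⟨by omega, ?_, ?_⟩
    · have : 2 * N + (2 * s + 1) ≤ 4 * N := by omega
      nlinarith
    · intro d hd
      have h3 : (d : ℤ) ∣ ((2 * N + (2 * s + 1) : ℕ) : ℤ) := by exact_mod_cast hd
      have e : 2 * (s : ℤ) + (1 + 2 * N) = ((2 * N + (2 * s + 1) : ℕ) : ℤ) := by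
        push_cast
        ring
      rw [e]
      exact h3
  have hb3 : (((W.filter (fun s => ¬ Nat.Coprime (2 * s + 1) M)).card : ℕ) : ℝ) ≤ Λ * sg M + Nat.log 2 M :=
    bad_cop Λ S0 M (by omega)
  -- the good ones
  set G := W.filter (fun s => Squarefree (2 * N - (2 * s + 1)) ∧ Squarefree (2 * N + (2 * s + 1)) ∧
    Nat.Coprime (2 * s + 1) M) with hG
  have hcov : W ⊆ G ∪ ((W.filter (fun s => ¬ Squarefree (2 * N - (2 * s + 1)))) ∪
      ((W.filter (fun s => ¬ Squarefree (2 * N + (2 * s + 1)))) ∪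
        (W.filter (fun s => ¬ Nat.Coprime (2 * s + 1) M)))) := by
    intro s hs
    simp only [mem_union, mem_filter, hG]
    tauto
  have hc1 : W.card ≤ G.card + ((W.filter (fun s => ¬ Squarefree (2 * N - (2 * s + 1)))).card +
      ((W.filter (fun s => ¬ Squarefree (2 * N + (2 * s + 1)))).card +
        (W.filter (fun s => ¬ Nat.Coprime (2 * s + 1) M)).card)) := by
    refine (card_le_card hcov).trans ((card_union_le _ _).trans ?_)
    refine Nat.add_le_add_left ((card_union_le _ _).trans ?_) _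
    exact Nat.add_le_add_left (card_union_le _ _) _
  have hWc : W.card = Λ := by rw [hW, Nat.card_Ico]; omega
  rw [hWc] at hc1
  have hc2 : (Λ : ℝ) ≤ G.card + (((W.filter (fun s => ¬ Squarefree (2 * N - (2 * s + 1)))).card : ℕ) +
      (((W.filter (fun s => ¬ Squarefree (2 * N + (2 * s + 1)))).card : ℕ) +
        ((W.filter (fun s => ¬ Nat.Coprime (2 * s + 1) M)).card : ℕ))) := by exact_mod_cast hc1
  have hΛ' : (20 : ℝ) * (K + Nat.log 2 M + 1) ≤ Λ := by exact_mod_cast hΛ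
  have hsg2 : (Λ : ℝ) * sg M ≤ Λ * (3 / 10) := mul_le_mul_of_nonneg_left hsg (Nat.cast_nonneg _)
  have hGc : (Λ : ℝ) / 10 ≤ G.card := by
    have h1 : (0 : ℝ) ≤ Nat.log 2 M := Nat.cast_nonneg _
    have h2 : (0 : ℝ) ≤ K := Nat.cast_nonneg _
    linarith
  refine ⟨G.image (fun s => 4 * N ^ 2 - (2 * s + 1) ^ 2), ?_, ?_⟩
  · rw [card_image_of_injOn]
    · exact hGc
    · intro x hx y hy hxy
      have hx1 := hwin x (mem_filter.1 hx).1
      have hy1 := hwin y (mem_filter.1 hy).1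
      have h3 : 4 * N ^ 2 - (2 * x + 1) ^ 2 = 4 * N ^ 2 - (2 * y + 1) ^ 2 := hxy
      have h4 : (2 * x + 1) ^ 2 ≤ 4 * N ^ 2 := by nlinarith
      have h5 : (2 * y + 1) ^ 2 ≤ 4 * N ^ 2 := by nlinarith
      have h6 : (2 * x + 1) ^ 2 = (2 * y + 1) ^ 2 := by omega
      have h7 := Nat.pow_left_injective (n := 2) (by norm_num) h6
      omega
  · intro D hD
    obtain ⟨s, hs, rfl⟩ := mem_image.1 hD
    obtain ⟨hs1, hs2, hs3, hs4⟩ := mem_filter.1 hs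
    obtain ⟨h1, h2⟩ := hwin s hs1
    obtain ⟨t, ht⟩ : ∃ t, t = 2 * s + 1 := ⟨_, rfl⟩
    have hto : t % 2 = 1 := by omega
    rw [← ht] at h1 h2 hs2 hs3 hs4 ⊢
    have h4 : t ^ 2 ≤ T * T := by nlinarith
    have h5 : t ^ 2 + (4 * N ^ 2 - t ^ 2) = 4 * N ^ 2 := by omega
    have h6 : 4 * N ^ 2 - t ^ 2 = (2 * N - t) * (2 * N + t) := by
      have : t ≤ 2 * N := by omega
      zify [this, (by omega : t ^ 2 ≤ 4 * N ^ 2)]
      ring
    refine ⟨by omega, ?_, ?_, ?_, t, hto, hs4, h5⟩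
    · have h7 : (T + 1) * (T + 1) ≤ t ^ 2 + (2 * Λ + 2) * (2 * T + 2) := by
        obtain ⟨u, hu⟩ : ∃ u, T + 1 = t + u := ⟨T + 1 - t, by omega⟩
        have hu1 : u ≤ 2 * Λ + 2 := by omega
        have hu2 : t + (T + 1) ≤ 2 * T + 2 := by omega
        have e : (T + 1) * (T + 1) = t ^ 2 + u * (t + (T + 1)) := by
          rw [hu]; ring
        rw [e]
        exact Nat.add_le_add_left (Nat.mul_le_mul hu1 hu2) _
      omega
    · rw [h6, Nat.squarefree_mul (cop_ab hNM hto (by omega) hs4)]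
      exact ⟨hs2, hs3⟩
    · have h7 : t ^ 2 % 4 = 1 := by
        obtain ⟨u, rfl⟩ : ∃ u, t = 2 * u + 1 := ⟨t / 2, by omega⟩
        have : (2 * u + 1) ^ 2 = 4 * (u ^ 2 + u) + 1 := by ring
        omega
      omega

end Pool.Agent.X4.CG
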