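import Pool.Agent.X4.CG.Main

/-! Lower bounds for the number of the fields in short intervals of any length. -/

set_option autoImplicit false

namespace Pool.Agent.X4.CG

open Finset Filter NumberField

/-- the discriminants -/
def Good (g D : ℕ) : Prop := Squarefree D ∧ D % 4 = 3 ∧
  ∀ (K : Type) [Field K] [NumberField K], Module.finrank ℚ K = 2 → discr K = -(D : ℤ) →
        ∃ c : ClassGroup (𝓞 K), orderOf c = 2 * g

theorem subdiv (P : ℕ → Prop) (θ ε : ℝ) (hθ : 0 ≤ θ) (hε : 0 < ε)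
    (h : ∃ X₀ : ℕ, ∀ X : ℕ, X₀ ≤ X → ∃ S : Finset ℕ, (X : ℝ) ^ (1 / 4 : ℝ) ≤ S.card ∧ ∀ D ∈ S, X < D ∧
      (D : ℝ) ≤ X + (X : ℝ) ^ (θ + ε / 2) ∧ P D) :
    ∃ X₀ : ℕ, ∀ X : ℕ, X₀ ≤ X → ∀ H : ℝ, (X : ℝ) ^ (θ + ε) ≤ H → H ≤ X →
      ∃ S : Finset ℕ, H * (X : ℝ) ^ (1 / 4 - θ - ε) ≤ S.card ∧ ∀ D ∈ S, X < D ∧ (D : ℝ) ≤ X + H ∧ P D := by
  obtain ⟨X₁, h1⟩ := h
  have e1 : ∀ᶠ x : ℝ in atTop, 4 * 2 ^ (θ + ε / 2) ≤ x ^ (ε / 2) :=
    (tendsto_rpow_atTop (by positivity)).eventually_ge_atTop _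
  obtain ⟨X₂, h2⟩ := eventually_atTop.1 ((tendsto_natCast_atTop_atTop (R := ℝ)).eventually e1)
  refine ⟨X₁ + X₂ + 1, fun X hX H hH1 hH2 => ?_⟩
  have hX1 : (1 : ℝ) ≤ X := by exact_mod_cast (by omega : 1 ≤ X)
  have hX0 : (0 : ℝ) < X := by linarith
  have h3 := h2 X (by omega)
  set u : ℝ := (2 * X) ^ (θ + ε / 2) with hu
  have hu1 : 1 ≤ u := Real.one_le_rpow (by linarith) (by linarith)
  have h4 : 4 * u ≤ (X : ℝ) ^ (θ + ε) := by
    have e : (X : ℝ) ^ (θ + ε) = (X : ℝ) ^ (ε / 2) * (X : ℝ) ^ (θ + ε / 2) := by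
      rw [← Real.rpow_add hX0]
      congr 1
      ring
    rw [hu, Real.mul_rpow (by norm_num) hX0.le, e, ← mul_assoc]
    exact mul_le_mul_of_nonneg_right h3 (by positivity)
  set v : ℕ := ⌈u⌉₊ with hv
  have hv1 : u ≤ v := Nat.le_ceil _
  have hv2 : (v : ℝ) < u + 1 := Nat.ceil_lt_add_one (by linarith)
  have hv0 : (0 : ℝ) < v := by linarith
  have h5 : 2 * (v : ℝ) ≤ (X : ℝ) ^ (θ + ε) := by linarith
  have hH0 : 0 < H := by linarith
  set J : ℕ := ⌊H / v⌋₊ with hJ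
  have hJ1 : (J : ℝ) ≤ H / v := Nat.floor_le (by positivity)
  have hJ2 : H / v < J + 1 := Nat.lt_floor_add_one _
  have hJ3 : (J : ℝ) * v ≤ H := by rwa [le_div_iff₀ hv0] at hJ1
  have hbase : ∀ j : ℕ, ∃ S : Finset ℕ, j < J → ((X : ℝ) ^ (1 / 4 : ℝ) ≤ S.card ∧ ∀ D ∈ S,
      X + j * v < D ∧ D ≤ X + (j + 1) * v ∧ P D) := by
    intro j
    by_cases hj : j < J
    · obtain ⟨S, hS1, hS2⟩ := h1 (X + j * v) (by
        have : 0 ≤ j * v := Nat.zero_le _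
        omega)
      refine ⟨S, fun _ => ⟨?_, ?_⟩⟩
      · refine le_trans (Real.rpow_le_rpow hX0.le ?_ (by norm_num)) hS1
        push_cast
        have : (0 : ℝ) ≤ (j : ℝ) * v := by positivity
        linarith
      · intro D hD
        obtain ⟨k1, k2, k3⟩ := hS2 D hD
        refine ⟨k1, ?_, k3⟩
        have h6 : ((X + j * v : ℕ) : ℝ) ≤ 2 * X := by
          have h7 : ((j : ℝ) + 1) ≤ J := by exact_mod_cast hj
          have h8 : (j : ℝ) * v ≤ J * v := mul_le_mul_of_nonneg_right (by linarith) hv0.le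
          push_cast
          linarith
        have h7 : ((X + j * v : ℕ) : ℝ) ^ (θ + ε / 2) ≤ u :=
          Real.rpow_le_rpow (Nat.cast_nonneg _) h6 (by linarith)
        have h8 : (D : ℝ) ≤ ((X + (j + 1) * v : ℕ) : ℝ) := by
          push_cast at k2 h7 ⊢
          linarith
        exact_mod_cast h8
    · exact ⟨∅, fun h => absurd h hj⟩
  choose S hS using hbase
  refine ⟨(range J).biUnion S, ?_, ?_⟩
  · have hdis : ∀ i ∈ range J, ∀ j ∈ range J, i ≠ j → Disjoint (S i) (S j) := by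
      have aux : ∀ i j : ℕ, i < J → j < J → i < j → Disjoint (S i) (S j) := by
        intro i j hi hj hij
        rw [Finset.disjoint_left]
        intro D hD1 hD2
        have k1 := ((hS i hi).2 D hD1).2.1
        have k2 := ((hS j hj).2 D hD2).1
        have k3 : (i + 1) * v ≤ j * v := Nat.mul_le_mul_right _ hij
        omega
      intro i hi j hj hij
      rcases lt_or_gt_of_ne hij with h | h
      · exact aux i j (mem_range.1 hi) (mem_range.1 hj) h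
      · exact (aux j i (mem_range.1 hj) (mem_range.1 hi) h).symm
    rw [card_biUnion hdis]
    push_cast
    have h6 : (J : ℝ) * (X : ℝ) ^ (1 / 4 : ℝ) ≤ ∑ j ∈ range J, ((S j).card : ℝ) := by
      have := card_nsmul_le_sum (range J) (fun j => ((S j).card : ℝ)) ((X : ℝ) ^ (1 / 4 : ℝ))
        (fun j hj => (hS j (mem_range.1 hj)).1)
      rwa [card_range, nsmul_eq_mul] at this
    refine le_trans ?_ h6
    have h7 : H / (2 * v) ≤ J := by
      have h8 : 2 ≤ H / v := by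
        rw [le_div_iff₀ hv0]
        linarith
      have h9 : H / (2 * v) = H / v / 2 := by
        field_simp
      rw [h9]
      linarith
    have h8 : H * (X : ℝ) ^ (1 / 4 - θ - ε) = H / (X : ℝ) ^ (θ + ε) * (X : ℝ) ^ (1 / 4 : ℝ) := by
      rw [show (1 / 4 - θ - ε : ℝ) = -(θ + ε) + 1 / 4 by ring, Real.rpow_add hX0, Real.rpow_neg hX0.le]
      ring
    rw [h8]
    apply mul_le_mul_of_nonneg_right _ (by positivity)
    exact (div_le_div_of_nonneg_left hH0.le (by positivity) h5).trans h7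
  · intro D hD
    obtain ⟨j, hj, hD1⟩ := mem_biUnion.1 hD
    obtain ⟨k1, k2, k3⟩ := (hS j (mem_range.1 hj)).2 D hD1
    refine ⟨by
      have : 0 ≤ j * v := Nat.zero_le _
      omega, ?_, k3⟩
    have h6 : (D : ℝ) ≤ ((X + (j + 1) * v : ℕ) : ℝ) := by exact_mod_cast k2
    have h7 : ((j : ℝ) + 1) ≤ J := by exact_mod_cast (mem_range.1 hj)
    have h8 : ((j : ℝ) + 1) * v ≤ J * v := mul_le_mul_of_nonneg_right h7 hv0.le
    push_cast at h6
    linarith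

theorem main2 (g : ℕ) (hg : 1 ≤ g) (ε : ℝ) (hε : 0 < ε) : ∃ X₀ : ℕ, ∀ X : ℕ, X₀ ≤ X →
    ∀ H : ℝ, (X : ℝ) ^ (3 / 4 - 1 / (4 * g) + ε : ℝ) ≤ H → H ≤ X →
    ∃ S : Finset ℕ, H * (X : ℝ) ^ (-(1 / 2) + 1 / (4 * g) - ε : ℝ) ≤ S.card ∧
      ∀ D ∈ S, X < D ∧ (D : ℝ) ≤ X + H ∧ Good g D := by
  have hgr : (1 : ℝ) ≤ g := by exact_mod_cast hg
  have hθ : (0 : ℝ) ≤ 3 / 4 - 1 / (4 * g) := by
    have : (1 : ℝ) / (4 * g) ≤ 1 / 4 := by
      apply one_div_le_one_div_of_le (by norm_num)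
      linarith
    linarith
  obtain ⟨X₀, h⟩ := subdiv (Good g) (3 / 4 - 1 / (4 * g)) ε hθ hε (main g hg (ε / 2) (by positivity))
  refine ⟨X₀, fun X hX H hH1 hH2 => ?_⟩
  have := h X hX H hH1 hH2
  rwa [show (1 / 4 - (3 / 4 - 1 / (4 * g)) - ε : ℝ) = -(1 / 2) + 1 / (4 * g) - ε by ring] at this

end Pool.Agent.X4.CG
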