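import Pool.Agent.X4.CG.Par
import Pool.Agent.X32.Cls.Fld
import Pool.Agent.X32.Cls.Ord

/-! Imaginary quadratic fields with an ideal class of order `2 g` in short intervals. -/

set_option autoImplicit false

namespace Pool.Agent.X4.CG

open Finset Filter NumberField

theorem class_of {g M D t : ℕ} (hg : 1 ≤ g) (hM : 2 ≤ M) (hc : Nat.Coprime t M) (h : t ^ 2 + D = 4 * (M ^ g) ^ 2)
    (hD : 4 * M ^ g < D) (K : Type) [Field K] [NumberField K] (h2 : Module.finrank ℚ K = 2)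
    (hd : discr K = -(D : ℤ)) : ∃ c : ClassGroup (𝓞 K), orderOf c = 2 * g := by
  have hD0 : 0 < D := by omega
  have hneg : discr K < 0 := by rw [hd]; omega
  obtain ⟨I, -, hI⟩ := Pool.Agent.X32.Cls.order_disc (K := K) h2 hneg (n := t) (f := 1) (M := M) (m := 2 * g) hM
    (by omega) one_ne_zero (Nat.isCoprime_iff_coprime.2 hc) (by
      rw [hd]
      have : ((t ^ 2 + D : ℕ) : ℤ) = ((4 * (M ^ g) ^ 2 : ℕ) : ℤ) := by rw [h]
      push_cast at this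
      have e : (M : ℤ) ^ (2 * g) = ((M : ℤ) ^ g) ^ 2 := by rw [← pow_mul, mul_comm]
      rw [e]
      linarith) (by
      intro k hk hlt
      have hkg : k ≤ g := by
        obtain ⟨c, hc⟩ := hk
        have hc2 : 2 ≤ c := by
          by_contra hcon
          push Not at hcon
          interval_cases c <;> omega
        nlinarith
      have h1 : M ^ k ≤ M ^ g := Nat.pow_le_pow_right (by omega) hkg
      rw [hd, abs_neg, Nat.abs_cast]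
      have h3 : 4 * M ^ k < D := by omega
      exact_mod_cast h3)
  exact ⟨_, hI⟩

theorem exists_base (m X : ℕ) (hm : 1 ≤ m) : ∃ a : ℕ, 4 * a ^ m ≤ X ∧ X < 4 * (a + 1) ^ m := by
  have h1 : ∃ b : ℕ, X < 4 * (b + 1) ^ m := ⟨X, by
    have := Nat.le_self_pow (n := m) (by omega) (X + 1)
    omega⟩
  classical
  refine ⟨Nat.find h1, ?_, Nat.find_spec h1⟩
  by_contra hcon
  push Not at hcon
  have h2 : Nat.find h1 ≠ 0 := by
    intro h0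
    rw [h0, zero_pow (by omega)] at hcon
    omega
  have h3 := Nat.find_min h1 (m := Nat.find h1 - 1) (by omega)
  apply h3
  have : Nat.find h1 - 1 + 1 = Nat.find h1 := by omega
  rw [this]
  exact hcon

theorem main (g : ℕ) (hg : 1 ≤ g) (ε : ℝ) (hε : 0 < ε) : ∃ X₀ : ℕ, ∀ X : ℕ, X₀ ≤ X →
    ∃ S : Finset ℕ, (X : ℝ) ^ (1 / 4 : ℝ) ≤ S.card ∧ ∀ D ∈ S, X < D ∧
      (D : ℝ) ≤ X + (X : ℝ) ^ (3 / 4 - 1 / (4 * g) + ε : ℝ) ∧ Squarefree D ∧ D % 4 = 3 ∧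
      ∀ (K : Type) [Field K] [NumberField K], Module.finrank ℚ K = 2 → discr K = -(D : ℤ) →
        ∃ c : ClassGroup (𝓞 K), orderOf c = 2 * g := by
  have hgr : (1 : ℝ) ≤ g := by exact_mod_cast hg
  set C : ℕ := 256 * 1600 * 16 * g * 2 ^ g * 2 ^ (2 * g - 1) with hC
  have e1 := log_lin 80 (80 * 23 + 2 * (3600 * 2 ^ g + 1)) 1 (by norm_num) one_pos
  have e2 := log_lin 1 3 (1 / 2) (by norm_num) (by norm_num)
  have e3 := log_lin (C * 40) (C * (40 * 23 + 3600 * 2 ^ g + 1)) (4 * g * ε) (by positivity) (by positivity)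
  obtain ⟨B, hB⟩ := eventually_atTop.1 ((e1.and (e2.and e3)).and (eventually_ge_atTop 1))
  refine ⟨4 * (B + 1) ^ (2 * g), fun X hX => ?_⟩
  obtain ⟨M₀, hM1, hM2⟩ := exists_base (2 * g) X (by omega)
  have hMB : B ≤ M₀ := by
    by_contra hcon
    push Not at hcon
    have : (M₀ + 1) ^ (2 * g) ≤ (B + 1) ^ (2 * g) := Nat.pow_le_pow_left (by omega) _
    omega
  obtain ⟨⟨f1, f2, f3⟩, f4⟩ := hB M₀ hMB
  obtain ⟨L, hL⟩ : ∃ L, L = Nat.log 2 M₀ + 2 := ⟨_, rfl⟩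
  obtain ⟨R, hR⟩ : ∃ R, R = 40 * (21 + L) + 3600 * 2 ^ g + 1 := ⟨_, rfl⟩
  have hRr : (R : ℝ) = 40 * (Nat.log 2 M₀ : ℝ) + (40 * 23 + 3600 * 2 ^ g + 1) := by
    rw [hR, hL]; push_cast; ring
  have g1 : 2 * R ≤ M₀ := by
    rw [Real.rpow_one] at f1
    have : (2 : ℝ) * R ≤ M₀ := by rw [hRr]; linarith
    exact_mod_cast this
  have g2 : (L + 1) ^ 2 ≤ M₀ := by
    have h1 : ((L : ℝ) + 1) ≤ (M₀ : ℝ) ^ (1 / 2 : ℝ) := by
      rw [hL]; push_cast; linarith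
    have h2 : ((L : ℝ) + 1) ^ 2 ≤ ((M₀ : ℝ) ^ (1 / 2 : ℝ)) ^ 2 := pow_le_pow_left₀ (by positivity) h1 2
    rw [← Real.rpow_natCast ((M₀ : ℝ) ^ (1 / 2 : ℝ)) 2, ← Real.rpow_mul (by positivity)] at h2
    norm_num at h2
    exact_mod_cast h2
  have g3 : (C : ℝ) * R ≤ (M₀ : ℝ) ^ (4 * g * ε : ℝ) := by
    rw [hRr]
    linarith
  obtain ⟨M, Λ, T, hM, hMM, h4, hXN, hΛ, hH, S, hSc, hS⟩ := step g M₀ X L R hg hL hR g1 g2 hM1 hM2
  have hM0r : (0 : ℝ) < M₀ := by exact_mod_cast (by omega : 0 < M₀)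
  have hXr : ((M₀ : ℝ)) ^ (2 * g : ℝ) ≤ X := by
    have h1 : M₀ ^ (2 * g) ≤ X := by omega
    have h2 : ((M₀ : ℝ)) ^ (2 * g) ≤ X := by exact_mod_cast h1
    rw [show (2 * g : ℝ) = ((2 * g : ℕ) : ℝ) by push_cast; ring, Real.rpow_natCast]
    exact h2
  have hX0 : (0 : ℝ) ≤ X := Nat.cast_nonneg _
  have hθ : (0 : ℝ) ≤ 3 / 4 - 1 / (4 * g) + ε := by
    have : (1 : ℝ) / (4 * g) ≤ 1 / 4 := by
      apply one_div_le_one_div_of_le (by norm_num)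
      linarith
    linarith
  have hHr : (((2 * Λ + 2) * (2 * T + 2) : ℕ) : ℝ) ≤ (X : ℝ) ^ (3 / 4 - 1 / (4 * g) + ε : ℝ) := by
    have h1 : ((((2 * Λ + 2) * (2 * T + 2) : ℕ) : ℝ)) ^ 2 ≤ (C : ℝ) * R * (M₀ : ℝ) ^ (3 * g - 1) := by
      exact_mod_cast hH
    have h2 : (C : ℝ) * R * (M₀ : ℝ) ^ (3 * g - 1) ≤ ((X : ℝ) ^ (3 / 4 - 1 / (4 * g) + ε : ℝ)) ^ 2 := by
      have h3 : ((X : ℝ) ^ (3 / 4 - 1 / (4 * g) + ε : ℝ)) ^ 2 =
          (X : ℝ) ^ (2 * (3 / 4 - 1 / (4 * g) + ε) : ℝ) := by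
        rw [← Real.rpow_natCast _ 2, ← Real.rpow_mul hX0]
        congr 1
        push_cast
        ring
      have h4 : ((M₀ : ℝ) ^ (2 * g : ℝ)) ^ (2 * (3 / 4 - 1 / (4 * g) + ε) : ℝ) ≤
          (X : ℝ) ^ (2 * (3 / 4 - 1 / (4 * g) + ε) : ℝ) :=
        Real.rpow_le_rpow (by positivity) hXr (by linarith)
      rw [h3]
      refine le_trans ?_ h4
      rw [← Real.rpow_mul hM0r.le]
      have h5 : (2 * g * (2 * (3 / 4 - 1 / (4 * g) + ε)) : ℝ) = 4 * g * ε + ((3 * g - 1 : ℕ) : ℝ) := by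
        rw [Nat.cast_sub (by omega)]
        push_cast
        have : (g : ℝ) ≠ 0 := by linarith
        field_simp
        ring
      rw [h5, Real.rpow_add hM0r, Real.rpow_natCast]
      exact mul_le_mul_of_nonneg_right g3 (by positivity)
    exact (sq_le_sq₀ (by positivity) (by positivity)).1 (h1.trans h2)
  refine ⟨S, ?_, ?_⟩
  · have h1 : (X : ℝ) ≤ 4 * ((M ^ g : ℕ) : ℝ) ^ 2 := by exact_mod_cast hXN.le
    have hN0 : (0 : ℝ) ≤ ((M ^ g : ℕ) : ℝ) := Nat.cast_nonneg _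
    have h2 : (X : ℝ) ^ (1 / 4 : ℝ) ≤ 2 * Real.sqrt ((M ^ g : ℕ) : ℝ) := by
      have h3 : (X : ℝ) ≤ (2 * Real.sqrt ((M ^ g : ℕ) : ℝ)) ^ 4 := by
        have : (2 * Real.sqrt ((M ^ g : ℕ) : ℝ)) ^ 4 = 16 * ((Real.sqrt ((M ^ g : ℕ) : ℝ)) ^ 2) ^ 2 := by ring
        rw [this, Real.sq_sqrt hN0]
        nlinarith [sq_nonneg (((M ^ g : ℕ) : ℝ))]
      calc (X : ℝ) ^ (1 / 4 : ℝ) ≤ ((2 * Real.sqrt ((M ^ g : ℕ) : ℝ)) ^ 4) ^ (1 / 4 : ℝ) :=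
            Real.rpow_le_rpow hX0 h3 (by norm_num)
        _ = 2 * Real.sqrt ((M ^ g : ℕ) : ℝ) := by
            rw [← Real.rpow_natCast _ 4, ← Real.rpow_mul (by positivity)]
            norm_num
    have h3 : Real.sqrt ((M ^ g : ℕ) : ℝ) ≤ Nat.sqrt (M ^ g) + 1 := by
      rw [Real.sqrt_le_left (by positivity)]
      have h4 : M ^ g < (Nat.sqrt (M ^ g) + 1) * (Nat.sqrt (M ^ g) + 1) := Nat.lt_succ_sqrt _
      have h5 : ((M ^ g : ℕ) : ℝ) < (((Nat.sqrt (M ^ g) + 1) * (Nat.sqrt (M ^ g) + 1) : ℕ) : ℝ) := by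
        exact_mod_cast h4
      push_cast at h5 ⊢
      nlinarith
    have h4 : (20 : ℝ) * (Nat.sqrt (M ^ g) + 1) ≤ Λ := by exact_mod_cast hΛ
    linarith
  · intro D hD
    obtain ⟨k1, k2, k3, k4, t, k5, k6, k7⟩ := hS D hD
    refine ⟨k1, ?_, k3, k4, ?_⟩
    · have : (D : ℝ) ≤ X + (((2 * Λ + 2) * (2 * T + 2) : ℕ) : ℝ) := by exact_mod_cast k2
      linarith
    · intro K _ _ h2 hd
      exact class_of hg hM k6 k7 (by omega) K h2 hd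

end Pool.Agent.X4.CG
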