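import Pool.Agent.X4.CG.Core

/-! Choice of the parameters. -/

set_option autoImplicit false

namespace Pool.Agent.X4.CG

open Finset Filter

/-- linear functions of the logarithm are smaller than powers -/
theorem log_lin (A B δ : ℝ) (hA : 0 ≤ A) (hδ : 0 < δ) :
    ∀ᶠ m : ℕ in atTop, A * (Nat.log 2 m : ℝ) + B ≤ (m : ℝ) ^ δ := by
  have h1 : ∀ᶠ x : ℝ in atTop, ‖Real.log x‖ ≤ (1 / (4 * A + 1)) * ‖x ^ δ‖ :=
    (isLittleO_log_rpow_atTop hδ).def (by positivity)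
  have h2 : ∀ᶠ x : ℝ in atTop, 2 * B ≤ x ^ δ := (tendsto_rpow_atTop hδ).eventually_ge_atTop _
  have h3 := tendsto_natCast_atTop_atTop (R := ℝ)
  filter_upwards [h3.eventually h1, h3.eventually h2, eventually_ge_atTop 1] with m h4 h5 h6
  have hm : (1 : ℝ) ≤ m := by exact_mod_cast h6
  have h7 : (0 : ℝ) ≤ (m : ℝ) ^ δ := by positivity
  rw [Real.norm_of_nonneg (Real.log_nonneg hm), Real.norm_of_nonneg h7] at h4
  have h8 : (Nat.log 2 m : ℝ) ≤ 2 * Real.log m := by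
    have h9 : 2 ^ Nat.log 2 m ≤ m := Nat.pow_log_le_self 2 (by omega)
    have h10 : ((2 : ℝ) ^ Nat.log 2 m) ≤ m := by exact_mod_cast h9
    have h11 := Real.log_le_log (by positivity) h10
    rw [Real.log_pow] at h11
    have h12 := Real.log_two_gt_d9
    have h13 : (0 : ℝ) ≤ Nat.log 2 m := Nat.cast_nonneg _
    nlinarith
  have h9 : 2 * Real.log m * A ≤ (m : ℝ) ^ δ / 2 := by
    have h10 : 2 * Real.log m * A ≤ 2 * (1 / (4 * A + 1) * (m : ℝ) ^ δ) * A := by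
      apply mul_le_mul_of_nonneg_right _ hA
      linarith
    refine h10.trans ?_
    have e : 2 * (1 / (4 * A + 1) * (m : ℝ) ^ δ) * A = (m : ℝ) ^ δ * (2 * A / (4 * A + 1)) := by
      field_simp
    rw [e, div_eq_mul_one_div ((m : ℝ) ^ δ) 2]
    apply mul_le_mul_of_nonneg_left _ h7
    rw [div_le_div_iff₀ (by positivity) (by norm_num)]
    linarith
  have h10 := mul_le_mul_of_nonneg_right h8 hA
  linarith

/-- Bernoulli -/
theorem pow_lower (a h m : ℕ) (hm : 1 ≤ m) : a ^ m + h * a ^ (m - 1) ≤ (a + h) ^ m := by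
  obtain ⟨k, rfl⟩ : ∃ k, m = k + 1 := ⟨m - 1, by omega⟩
  rw [Nat.add_sub_cancel, pow_succ (a + h)]
  have h1 : a ^ k ≤ (a + h) ^ k := Nat.pow_le_pow_left (by omega) k
  calc a ^ (k + 1) + h * a ^ k = a ^ k * (a + h) := by ring
    _ ≤ (a + h) ^ k * (a + h) := Nat.mul_le_mul_right _ h1

theorem pow_upper (a h m : ℕ) : (a + h) ^ (m + 1) ≤ a ^ (m + 1) + (m + 1) * h * (a + h) ^ m := by
  induction m with
  | zero => simp
  | succ m ih =>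
    have h1 : (a + h) ^ (m + 1 + 1) = (a + h) ^ (m + 1) * a + h * (a + h) ^ (m + 1) := by ring
    have h2 : (a + h) ^ (m + 1) * a ≤ (a ^ (m + 1) + (m + 1) * h * (a + h) ^ m) * a := Nat.mul_le_mul_right _ ih
    have h3 : (a + h) ^ m * a ≤ (a + h) ^ (m + 1) := by
      rw [pow_succ]; exact Nat.mul_le_mul_left _ (by omega)
    have h4 : (m + 1) * h * ((a + h) ^ m * a) ≤ (m + 1) * h * (a + h) ^ (m + 1) := Nat.mul_le_mul_left _ h3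
    calc (a + h) ^ (m + 1 + 1) = (a + h) ^ (m + 1) * a + h * (a + h) ^ (m + 1) := h1
      _ ≤ (a ^ (m + 1) + (m + 1) * h * (a + h) ^ m) * a + h * (a + h) ^ (m + 1) := Nat.add_le_add_right h2 _
      _ = a ^ (m + 1 + 1) + ((m + 1) * h * ((a + h) ^ m * a) + h * (a + h) ^ (m + 1)) := by ring
      _ ≤ a ^ (m + 1 + 1) + ((m + 1) * h * (a + h) ^ (m + 1) + h * (a + h) ^ (m + 1)) := by omega
      _ = _ := by ring

/-- the arithmetic step -/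
theorem step (g M₀ X L R : ℕ) (hg : 1 ≤ g) (hL : L = Nat.log 2 M₀ + 2)
    (hR : R = 40 * (21 + L) + 3600 * 2 ^ g + 1) (h2R : 2 * R ≤ M₀) (hL2 : (L + 1) ^ 2 ≤ M₀)
    (hX1 : 4 * M₀ ^ (2 * g) ≤ X) (hX2 : X < 4 * (M₀ + 1) ^ (2 * g)) :
    ∃ M Λ T : ℕ, 2 ≤ M ∧ M₀ < M ∧ 4 * M ^ g < X ∧ X < 4 * (M ^ g) ^ 2 ∧ 20 * (Nat.sqrt (M ^ g) + 1) ≤ Λ ∧
      ((2 * Λ + 2) * (2 * T + 2)) ^ 2 ≤ (256 * 1600 * 16 * g * 2 ^ g * 2 ^ (2 * g - 1)) * R * M₀ ^ (3 * g - 1) ∧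
      ∃ S : Finset ℕ, (Λ : ℝ) / 10 ≤ S.card ∧ ∀ D ∈ S, X < D ∧ D ≤ X + (2 * Λ + 2) * (2 * T + 2) ∧
      Squarefree D ∧ D % 4 = 3 ∧ ∃ t, t % 2 = 1 ∧ Nat.Coprime t M ∧ t ^ 2 + D = 4 * (M ^ g) ^ 2 := by
  have hM₀ : 1000 ≤ M₀ := by omega
  have hlog : Nat.log 2 (M₀ + R + R) ≤ L := by
    have h1 : M₀ + R + R ≤ M₀ * 2 := by omega
    refine (Nat.log_mono_right h1).trans ?_
    rw [Nat.log_mul_base (by norm_num) (by omega)]
    omega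
  obtain ⟨M, hM, hsg⟩ := choice (M₀ + R) R L (by omega) hlog (by omega)
  obtain ⟨hMa, hMb⟩ := mem_Ico.1 hM
  have hM2 : M ≤ 2 * M₀ := by omega
  set N := M ^ g with hN
  have hN1 : N ≤ 2 ^ g * M₀ ^ g := by
    rw [← mul_pow]
    exact Nat.pow_le_pow_left hM2 g
  have hMN : M ≤ N := Nat.le_self_pow (by omega) M
  have hlogM : Nat.log 2 M ≤ L := (Nat.log_mono_right hMb.le).trans hlog
  have hsq : L + 1 ≤ Nat.sqrt N := by
    rw [Nat.le_sqrt]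
    have : (L + 1) * (L + 1) = (L + 1) ^ 2 := by ring
    omega
  obtain ⟨Λ, hΛ⟩ : ∃ Λ, Λ = 20 * (Nat.sqrt N + Nat.log 2 M + 1) := ⟨_, rfl⟩
  obtain ⟨T, hT⟩ : ∃ T, T = Nat.sqrt (4 * N ^ 2 - X - 1) := ⟨_, rfl⟩
  have hN2 : N ^ 2 = M ^ (2 * g) := by rw [hN, ← pow_mul, mul_comm]
  have hΛ40 : Λ ≤ 40 * Nat.sqrt N := by omega
  have hΛsq : Λ ^ 2 ≤ 1600 * N := by
    have h1 : Nat.sqrt N ^ 2 ≤ N := Nat.sqrt_le' N
    calc Λ ^ 2 ≤ (40 * Nat.sqrt N) ^ 2 := Nat.pow_le_pow_left hΛ40 2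
      _ = 1600 * Nat.sqrt N ^ 2 := by ring
      _ ≤ 1600 * N := Nat.mul_le_mul_left _ h1
  have hΛ1 : 20 ≤ Λ := by omega
  have hsqΛ : 20 * (Nat.sqrt N + 1) ≤ Λ := by omega
  -- lower bound
  have hlow : X + 4 * ((R - 1) * (M₀ + 1) ^ (2 * g - 1)) < 4 * N ^ 2 := by
    have h1 := pow_lower (M₀ + 1) (R - 1) (2 * g) (by omega)
    have h2 : (M₀ + 1 + (R - 1)) ^ (2 * g) ≤ M ^ (2 * g) := Nat.pow_le_pow_left (by omega) _
    rw [hN2]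
    omega
  have hpow1 : M₀ ^ g ≤ (M₀ + 1) ^ (2 * g - 1) :=
    (Nat.pow_le_pow_left (by omega) g).trans (Nat.pow_le_pow_right (by omega) (by omega))
  have hR1 : 3600 * 2 ^ g ≤ R - 1 := by omega
  have hTlow : 2 * Λ + 2 ≤ T := by
    rw [hT, Nat.le_sqrt]
    have h1 : (2 * Λ + 2) * (2 * Λ + 2) ≤ 9 * Λ ^ 2 := by nlinarith
    have h2 : 9 * Λ ^ 2 ≤ 14400 * (2 ^ g * M₀ ^ g) := by
      have := Nat.mul_le_mul_left 14400 hN1
      omega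
    have h3 : 14400 * (2 ^ g * M₀ ^ g) ≤ 4 * ((R - 1) * (M₀ + 1) ^ (2 * g - 1)) := by
      calc 14400 * (2 ^ g * M₀ ^ g) = 4 * ((3600 * 2 ^ g) * M₀ ^ g) := by ring
        _ ≤ 4 * ((R - 1) * (M₀ + 1) ^ (2 * g - 1)) := Nat.mul_le_mul_left _ (Nat.mul_le_mul hR1 hpow1)
    omega
  have hX3 : X < 4 * N ^ 2 := by omega
  have hTup : T ^ 2 ≤ 16 * g * R * (2 * M₀) ^ (2 * g - 1) := by
    have h1 : T ^ 2 ≤ 4 * N ^ 2 - X - 1 := by rw [hT]; exact Nat.sqrt_le' _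
    obtain ⟨k, hk⟩ : ∃ k, 2 * g = k + 1 := ⟨2 * g - 1, by omega⟩
    have h2 := pow_upper M₀ (2 * R) k
    have h3 : M ^ (2 * g) ≤ (M₀ + 2 * R) ^ (2 * g) := Nat.pow_le_pow_left (by omega) _
    have h4 : (M₀ + 2 * R) ^ k ≤ (2 * M₀) ^ k := Nat.pow_le_pow_left (by omega) _
    have h5 : (k + 1) * (2 * R) * (M₀ + 2 * R) ^ k ≤ (k + 1) * (2 * R) * (2 * M₀) ^ k := Nat.mul_le_mul_left _ h4
    have h6 : 2 * g - 1 = k := by omega
    rw [hN2] at h1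
    rw [hk] at h1 h3 hX1
    have e : 16 * g * R * (2 * M₀) ^ (2 * g - 1) = 4 * ((k + 1) * (2 * R) * (2 * M₀) ^ k) := by
      rw [h6, ← hk]; ring
    rw [e]
    omega
  refine ⟨M, Λ, T, by omega, by omega, ?_, hX3, hsqΛ, ?_, ?_⟩
  · have h1 : 2 ^ g < M₀ ^ g := Nat.pow_lt_pow_left (by omega) (by omega)
    have h2 : 2 ^ g * M₀ ^ g < M₀ ^ g * M₀ ^ g := Nat.mul_lt_mul_of_pos_right h1 (by positivity)
    have h3 : M₀ ^ g * M₀ ^ g = M₀ ^ (2 * g) := by rw [← pow_add]; congr 1; ring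
    omega
  · have hT1 : 1 ≤ T := by omega
    have h1 : (2 * Λ + 2) * (2 * T + 2) ≤ (4 * Λ) * (4 * T) := Nat.mul_le_mul (by omega) (by omega)
    calc ((2 * Λ + 2) * (2 * T + 2)) ^ 2 ≤ ((4 * Λ) * (4 * T)) ^ 2 := Nat.pow_le_pow_left h1 2
      _ = 256 * (Λ ^ 2 * T ^ 2) := by ring
      _ ≤ 256 * ((1600 * (2 ^ g * M₀ ^ g)) * (16 * g * R * (2 * M₀) ^ (2 * g - 1))) := by
          apply Nat.mul_le_mul_left
          apply Nat.mul_le_mul _ hTup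
          exact hΛsq.trans (Nat.mul_le_mul_left _ hN1)
      _ = (256 * 1600 * 16 * g * 2 ^ g * 2 ^ (2 * g - 1)) * R * (M₀ ^ g * M₀ ^ (2 * g - 1)) := by
          rw [mul_pow]; ring
      _ = _ := by
          rw [← pow_add]
          congr 2
          omega
  · exact core g M X Λ T (by omega) hsg hX3 hT hΛ.ge hTlow

end Pool.Agent.X4.CG
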