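import Mathlib

/-! Odd numbers of a short interval for which `2 N - t`, `2 N + t` are squarefree and `t` is prime to `M`. -/

set_option autoImplicit false

namespace Pool.Agent.X4.CG

open Finset

/-- elements of an interval in one residue class -/
theorem card_class {A : Finset ℕ} {d Λ S0 : ℕ} (hA : A ⊆ Ico S0 (S0 + Λ))
    (h : ∀ x ∈ A, ∀ y ∈ A, (d : ℤ) ∣ (x : ℤ) - y) : A.card ≤ Λ / d + 1 := by
  rcases A.eq_empty_or_nonempty with h0 | h0
  · rw [h0]; simp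
  · obtain ⟨m, hm, hmin⟩ := A.exists_min_image id h0
    have h1 : A.card ≤ (range (Λ / d + 1)).card := by
      refine Finset.card_le_card_of_injOn (fun x => (x - m) / d) ?_ ?_
      · intro x hx
        have hx' : x ∈ A := hx
        have h2 := mem_Ico.1 (hA hx')
        have h3 := mem_Ico.1 (hA hm)
        simp only [coe_range, Set.mem_Iio]
        have h4 : x - m ≤ Λ := by omega
        have := Nat.div_le_div_right (c := d) h4
        omega
      · intro x hx y hy hxy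
        have hx' : x ∈ A := hx
        have hy' : y ∈ A := hy
        have h2 : m ≤ x := hmin x hx'
        have h3 : m ≤ y := hmin y hy'
        have h4 : d ∣ x - m := by
          have := h x hx' m hm
          zify [h2]
          exact this
        have h5 : d ∣ y - m := by
          have := h y hy' m hm
          zify [h3]
          exact this
        have h6 : (x - m) / d = (y - m) / d := hxy
        have h7 : x - m = y - m := by
          rw [← Nat.div_mul_cancel h4, ← Nat.div_mul_cancel h5, h6]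
        omega
    rwa [card_range] at h1

/-- the numbers `s` with `d ∣ 2 s + c`, `d` odd -/
theorem card_odd (d Λ S0 : ℕ) (c : ℤ) (hodd : d % 2 = 1) :
    ((((Ico S0 (S0 + Λ)).filter (fun s : ℕ => (d : ℤ) ∣ 2 * (s : ℤ) + c)).card : ℕ) : ℝ) ≤ Λ / d + 1 := by
  have h1 := card_class (A := (Ico S0 (S0 + Λ)).filter (fun s : ℕ => (d : ℤ) ∣ 2 * (s : ℤ) + c))
    (filter_subset _ _) (by
      intro x hx y hy
      have h2 := (mem_filter.1 hx).2
      have h3 := (mem_filter.1 hy).2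
      have h4 : (d : ℤ) ∣ 2 * ((x : ℤ) - y) := by
        have := dvd_sub h2 h3
        have e : 2 * (x : ℤ) + c - (2 * (y : ℤ) + c) = 2 * ((x : ℤ) - y) := by ring
        rwa [e] at this
      refine IsCoprime.dvd_of_dvd_mul_left ?_ h4
      rw [Int.isCoprime_iff_gcd_eq_one]
      have : Nat.Coprime d 2 := by
        exact Nat.coprime_two_right.2 (Nat.odd_iff.2 hodd)
      exact this)
  have h2 : ((Λ / d : ℕ) : ℝ) ≤ (Λ : ℝ) / d := Nat.cast_div_le
  have h3 : ((((Ico S0 (S0 + Λ)).filter (fun s : ℕ => (d : ℤ) ∣ 2 * (s : ℤ) + c)).card : ℕ) : ℝ) ≤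
      ((Λ / d + 1 : ℕ) : ℝ) := by exact_mod_cast h1
  push_cast at h3
  linarith

theorem sum_sq (K : ℕ) : ∑ k ∈ Ico 1 (K + 1), (1 : ℝ) / ((2 * k + 1 : ℕ) : ℝ) ^ 2 ≤ 1 / 4 - 1 / (4 * (K + 1)) := by
  induction K with
  | zero => simp
  | succ K ih =>
    rw [sum_Ico_succ_top (by omega)]
    have h1 : (1 : ℝ) / ((2 * (K + 1) + 1 : ℕ) : ℝ) ^ 2 ≤ 1 / (4 * (K + 1)) - 1 / (4 * ((K + 1 : ℕ) + 1)) := by
      push_cast
      rw [div_sub_div _ _ (by positivity) (by positivity), div_le_div_iff₀ (by positivity) (by positivity)]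
      nlinarith [(Nat.cast_nonneg K : (0 : ℝ) ≤ K)]
    push_cast at h1 ih ⊢
    linarith

theorem sum_sq' (K : ℕ) : ∑ k ∈ Ico 1 (K + 1), (1 : ℝ) / ((2 * k + 1 : ℕ) : ℝ) ^ 2 ≤ 1 / 4 := by
  have h1 := sum_sq K
  have h2 : (0 : ℝ) < 1 / (4 * (K + 1)) := by positivity
  linarith

/-- odd numbers which are not squarefree -/
theorem exists_sq {m K : ℕ} (hm : m % 2 = 1) (hK : m < (2 * K + 3) ^ 2) (h : ¬ Squarefree m) :
    ∃ k ∈ Ico 1 (K + 1), (2 * k + 1) ^ 2 ∣ m := by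
  rw [Squarefree] at h
  push Not at h
  obtain ⟨x, hx, hu⟩ := h
  have hm0 : 0 < m := by omega
  have hx1 : x ≠ 1 := by
    intro h1
    apply hu
    rw [h1]
    exact isUnit_one
  have hxo : x % 2 = 1 := by
    by_contra hc
    have h2 : 2 ∣ x := by omega
    have h3 : 2 ∣ m := (h2.mul_right x).trans hx
    omega
  have hle := Nat.le_of_dvd hm0 hx
  have hlt : x < 2 * K + 3 := by
    by_contra hc
    push Not at hc
    nlinarith
  refine ⟨(x - 1) / 2, mem_Ico.2 ⟨by omega, by omega⟩, ?_⟩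
  have : 2 * ((x - 1) / 2) + 1 = x := by omega
  rw [this, sq]
  exact hx

/-- the exceptional `s` for squarefreeness -/
theorem bad_sq (Λ S0 K : ℕ) (c : ℤ) (f : ℕ → ℕ)
    (hf : ∀ s ∈ Ico S0 (S0 + Λ), f s % 2 = 1 ∧ f s < (2 * K + 3) ^ 2 ∧ ∀ d : ℕ, d ∣ f s → (d : ℤ) ∣ 2 * (s : ℤ) + c) :
    ((((Ico S0 (S0 + Λ)).filter (fun s => ¬ Squarefree (f s))).card : ℕ) : ℝ) ≤ Λ / 4 + K := by
  have h1 : (Ico S0 (S0 + Λ)).filter (fun s => ¬ Squarefree (f s)) ⊆
      (Ico 1 (K + 1)).biUnion (fun k => (Ico S0 (S0 + Λ)).filter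
        (fun s : ℕ => (((2 * k + 1) ^ 2 : ℕ) : ℤ) ∣ 2 * (s : ℤ) + c)) := by
    intro s hs
    obtain ⟨h2, h3⟩ := mem_filter.1 hs
    obtain ⟨h4, h5, h6⟩ := hf s h2
    obtain ⟨k, hk, hk2⟩ := exists_sq h4 h5 h3
    exact mem_biUnion.2 ⟨k, hk, mem_filter.2 ⟨h2, h6 _ hk2⟩⟩
  have h2 := (card_le_card h1).trans card_biUnion_le
  have h3 : ((((Ico S0 (S0 + Λ)).filter (fun s => ¬ Squarefree (f s))).card : ℕ) : ℝ) ≤
      ∑ k ∈ Ico 1 (K + 1), ((((Ico S0 (S0 + Λ)).filter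
        (fun s : ℕ => (((2 * k + 1) ^ 2 : ℕ) : ℤ) ∣ 2 * (s : ℤ) + c)).card : ℕ) : ℝ) := by exact_mod_cast h2
  refine h3.trans ?_
  have h4 : ∀ k ∈ Ico 1 (K + 1), ((((Ico S0 (S0 + Λ)).filter
        (fun s : ℕ => (((2 * k + 1) ^ 2 : ℕ) : ℤ) ∣ 2 * (s : ℤ) + c)).card : ℕ) : ℝ) ≤
      Λ * (1 / ((2 * k + 1 : ℕ) : ℝ) ^ 2) + 1 := by
    intro k _
    refine (card_odd _ Λ S0 c ?_).trans (le_of_eq ?_)
    · rw [Nat.pow_mod]
      have : (2 * k + 1) % 2 = 1 := by omega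
      rw [this]
    · push_cast
      ring
  refine (sum_le_sum h4).trans ?_
  rw [sum_add_distrib, ← mul_sum, sum_const, Nat.card_Ico, nsmul_eq_mul, Nat.add_sub_cancel]
  have h5 := sum_sq' K
  have h6 := mul_le_mul_of_nonneg_left h5 (Nat.cast_nonneg (α := ℝ) Λ)
  linarith

/-- the sum over the odd prime divisors -/
noncomputable def sg (M : ℕ) : ℝ := ∑ p ∈ M.primeFactors.filter (fun p => p ≠ 2), (1 : ℝ) / p

theorem card_primeFactors_le (M : ℕ) (hM : M ≠ 0) : M.primeFactors.card ≤ Nat.log 2 M := by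
  have h1 : 2 ^ M.primeFactors.card ≤ M := by
    calc 2 ^ M.primeFactors.card = ∏ _p ∈ M.primeFactors, 2 := by rw [prod_const]
      _ ≤ ∏ p ∈ M.primeFactors, p := prod_le_prod' (fun p hp => (Nat.prime_of_mem_primeFactors hp).two_le)
      _ ≤ M := Nat.le_of_dvd (Nat.pos_of_ne_zero hM) (Nat.prod_primeFactors_dvd M)
  exact Nat.le_log_of_pow_le (by norm_num) h1

/-- the exceptional `s` for coprimality -/
theorem bad_cop (Λ S0 M : ℕ) (hM : M ≠ 0) :
    ((((Ico S0 (S0 + Λ)).filter (fun s => ¬ Nat.Coprime (2 * s + 1) M)).card : ℕ) : ℝ) ≤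
      Λ * sg M + Nat.log 2 M := by
  have h1 : (Ico S0 (S0 + Λ)).filter (fun s => ¬ Nat.Coprime (2 * s + 1) M) ⊆
      (M.primeFactors.filter (fun p => p ≠ 2)).biUnion (fun p => (Ico S0 (S0 + Λ)).filter
        (fun s : ℕ => (p : ℤ) ∣ 2 * (s : ℤ) + 1)) := by
    intro s hs
    obtain ⟨h2, h3⟩ := mem_filter.1 hs
    obtain ⟨p, hp, hp1, hp2⟩ := Nat.Prime.not_coprime_iff_dvd.1 h3
    refine mem_biUnion.2 ⟨p, mem_filter.2 ⟨Nat.mem_primeFactors.2 ⟨hp, hp2, hM⟩, ?_⟩, mem_filter.2 ⟨h2, ?_⟩⟩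
    · rintro rfl
      omega
    · exact_mod_cast hp1
  have h2 := (card_le_card h1).trans card_biUnion_le
  have h3 : ((((Ico S0 (S0 + Λ)).filter (fun s => ¬ Nat.Coprime (2 * s + 1) M)).card : ℕ) : ℝ) ≤
      ∑ p ∈ M.primeFactors.filter (fun p => p ≠ 2), ((((Ico S0 (S0 + Λ)).filter
        (fun s : ℕ => (p : ℤ) ∣ 2 * (s : ℤ) + 1)).card : ℕ) : ℝ) := by exact_mod_cast h2
  refine h3.trans ?_
  have h4 : ∀ p ∈ M.primeFactors.filter (fun p => p ≠ 2), ((((Ico S0 (S0 + Λ)).filter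
        (fun s : ℕ => (p : ℤ) ∣ 2 * (s : ℤ) + 1)).card : ℕ) : ℝ) ≤ Λ * (1 / p) + 1 := by
    intro p hp
    obtain ⟨h5, h6⟩ := mem_filter.1 hp
    have h7 := Nat.prime_of_mem_primeFactors h5
    refine (card_odd _ Λ S0 1 ?_).trans (le_of_eq (by ring))
    rcases h7.eq_two_or_odd with h | h
    · exact absurd h h6
    · exact h
  refine (sum_le_sum h4).trans ?_
  rw [sum_add_distrib, ← mul_sum, sum_const, nsmul_eq_mul, mul_one]
  have h5 : ((M.primeFactors.filter (fun p => p ≠ 2)).card : ℝ) ≤ Nat.log 2 M := by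
    exact_mod_cast (card_filter_le _ _).trans (card_primeFactors_le M hM)
  have h6 : (∑ p ∈ M.primeFactors.filter (fun p => p ≠ 2), (1 : ℝ) / p) = sg M := rfl
  rw [h6]
  linarith

end Pool.Agent.X4.CG
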